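import Mathlib
import Pool.Agent.H38R3.Ellentuck

set_option autoImplicit false

/-! Ramsey's theorem for finite subsets and a diagonal argument. -/

namespace Pool.Agent.W2helper64.RD

open Pool.Agent.H38R3.Ell

/-- `T` is an initial segment of `z` -/
def Ini (T : Finset ℕ) (z : Set ℕ) : Prop := (∀ t ∈ T, t ∈ z) ∧ ∀ x ∈ z, x ∈ T ∨ ∀ t ∈ T, t < x

lemma Ini.unique {T T' : Finset ℕ} {z : Set ℕ} (h : Ini T z) (h' : Ini T' z) (hc : T.card = T'.card) :
    T = T' := by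
  by_cases hs : T ⊆ T'
  · exact Finset.eq_of_subset_of_card_le hs hc.symm.le
  · -- an element of `T` outside `T'` lies above `T'`, hence `T' ⊆ T`
    rw [Finset.not_subset] at hs
    obtain ⟨x, hx, hx'⟩ := hs
    have h1 : ∀ t ∈ T', t < x := by
      rcases h'.2 x (h.1 x hx) with h2 | h2
      · exact absurd h2 hx'
      · exact h2
    refine (Finset.eq_of_subset_of_card_le ?_ hc.le).symm
    intro t ht
    rcases h.2 t (h'.1 t ht) with h2 | h2
    · exact h2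
    · have := h2 x hx
      have := h1 t ht
      omega

/-- Ramsey's theorem for subsets with `m` elements. -/
theorem ramsey (m : ℕ) (P : Finset ℕ → Prop) (Y : Set ℕ) (hY : Y.Infinite) :
    ∃ Z ⊆ Y, Z.Infinite ∧ ((∀ T : Finset ℕ, (T : Set ℕ) ⊆ Z → T.card = m → P T) ∨
      ∀ T : Finset ℕ, (T : Set ℕ) ⊆ Z → T.card = m → ¬ P T) := by
  classical
  set U : Set (Set ℕ) := {z | ∃ T : Finset ℕ, T.card = m ∧ Ini T z ∧ P T} with hU
  have hEO : EO U := by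
    rintro z ⟨T, hT, hini, hP⟩ hz
    refine ⟨T, ⟨hz, hini.1, fun x hx => ?_⟩, fun w hw => ⟨T, hT, ⟨hw.2.1, fun x hx => ?_⟩, hP⟩⟩
    · rcases hini.2 x hx with h | h
      · exact Or.inl h
      · exact Or.inr ⟨hx, h⟩
    · rcases hw.2.2 x hx with h | h
      · exact Or.inl h
      · exact Or.inr h.2
  obtain ⟨Z, h1, h2, h3⟩ := hEO.cr ∅ Y hY
  refine ⟨Z, h1, h2, ?_⟩
  have key : ∀ T : Finset ℕ, (T : Set ℕ) ⊆ Z → ∃ z ∈ Nb ∅ Z, Ini T z := by
    intro T hT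
    refine ⟨(T : Set ℕ) ∪ above T Z, ⟨(above_infinite h2).mono Set.subset_union_right, by simp, ?_⟩, ?_, ?_⟩
    · rintro x (hx | hx)
      · exact Or.inr ⟨hT hx, by simp⟩
      · exact Or.inr ⟨hx.1, by simp⟩
    · exact fun t ht => Or.inl ht
    · rintro x (hx | hx)
      · exact Or.inl hx
      · exact Or.inr hx.2
  rcases h3 with h3 | h3
  · left
    intro T hT hTm
    obtain ⟨z, hz, hini⟩ := key T hT
    obtain ⟨T', hT', hini', hP⟩ := h3 z hz
    rwa [← hini'.unique hini (hT'.trans hTm.symm)]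
  · right
    intro T hT hTm hP
    obtain ⟨z, hz, hini⟩ := key T hT
    exact h3 z hz ⟨T, hTm, hini, hP⟩

/-- the diagonal argument -/
theorem diag (P : ℕ → Set ℕ → Prop) (hmono : ∀ j Z Z', Z' ⊆ Z → P j Z → P j Z')
    (hstage : ∀ j (Y : Set ℕ), Y.Infinite → ∃ Z ⊆ Y, Z.Infinite ∧ P j Z) (V : Set ℕ) (hV : V.Infinite) :
    ∃ b : ℕ → ℕ, StrictMono b ∧ (∀ i, b i ∈ V) ∧ (∀ i, b i + i < b (i + 1)) ∧
      ∀ j, P j (b '' Set.Ici j) := by
  have hstep : ∀ (j : ℕ) (Y : {Y : Set ℕ // Y.Infinite}), ∃ Z : {Y : Set ℕ // Y.Infinite},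
      Z.1 ⊆ Y.1 ∧ P j Z.1 := by
    intro j Y
    obtain ⟨Z, h1, h2, h3⟩ := hstage j Y.1 Y.2
    exact ⟨⟨Z, h2⟩, h1, h3⟩
  choose nx hnx1 hnx2 using hstep
  let s : ℕ → {Y : Set ℕ // Y.Infinite} := fun k =>
    Nat.rec (nx 0 ⟨V, hV⟩) (fun j Y => nx (j + 1) Y) k
  have hs : ∀ k, s (k + 1) = nx (k + 1) (s k) := fun k => rfl
  have hs0 : s 0 = nx 0 ⟨V, hV⟩ := rfl
  have hgood : ∀ k, P k (s k).1 := by
    intro k
    rcases k with _ | k
    · exact hnx2 0 _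
    · rw [hs]
      exact hnx2 (k + 1) _
  have hanti : Antitone fun k => (s k).1 := antitone_nat_of_succ_le fun k => by
    show (s (k + 1)).1 ⊆ (s k).1
    rw [hs]
    exact hnx1 _ _
  have hex : ∀ (k m : ℕ), ∃ a ∈ (s k).1, m < a := fun k m => (s k).2.exists_gt m
  choose g hg1 hg2 using hex
  let b : ℕ → ℕ := fun k => Nat.rec (g 0 0) (fun j x => g (j + 1) (x + j)) k
  have hb : ∀ k, b (k + 1) = g (k + 1) (b k + k) := fun k => rfl
  have hbm : ∀ k, b k + k < b (k + 1) := fun k => by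
    rw [hb]
    exact hg2 _ _
  have hbs : ∀ k, b k ∈ (s k).1 := by
    intro k
    rcases k with _ | k
    · exact hg1 0 0
    · exact hg1 (k + 1) (b k + k)
  have hbm2 : StrictMono b := strictMono_nat_of_lt_succ fun k => by
    have := hbm k
    omega
  refine ⟨b, hbm2, fun i => ?_, hbm, fun j => ?_⟩
  · have h1 : (s i).1 ⊆ (s 0).1 := hanti (Nat.zero_le i)
    have h2 : (s 0).1 ⊆ V := by
      rw [hs0]
      exact hnx1 0 ⟨V, hV⟩
    exact h2 (h1 (hbs i))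
  · refine hmono j _ _ ?_ (hgood j)
    rintro _ ⟨i, hi, rfl⟩
    exact hanti hi (hbs i)

/-- an infinite subset in one residue class -/
lemma pigeon (Q : ℕ) (hQ : 1 ≤ Q) (Y : Set ℕ) (hY : Y.Infinite) :
    ∃ v : ℕ, ∃ Z ⊆ Y, Z.Infinite ∧ ∀ x ∈ Z, x ≡ v [MOD Q] := by
  by_contra hcon
  push Not at hcon
  apply hY
  have h1 : Y ⊆ ⋃ c ∈ Finset.range Q, {y | y ∈ Y ∧ y ≡ c [MOD Q]} := by
    intro y hy
    rw [Set.mem_iUnion₂]
    exact ⟨y % Q, Finset.mem_range.2 (Nat.mod_lt _ (by omega)), hy, (Nat.mod_modEq _ _).symm⟩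
  refine Set.Finite.subset (Set.Finite.biUnion (Finset.range Q).finite_toSet fun c _ => ?_) h1
  by_contra hinf
  obtain ⟨x, hx, hx2⟩ := hcon c {y | y ∈ Y ∧ y ≡ c [MOD Q]} (fun y hy => hy.1) hinf
  exact hx2 hx.2

end Pool.Agent.W2helper64.RD
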