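import Mathlib
import Pool.Agent.Y827.HD.Her
import Pool.Agent.W2helper64.RD.Ram

set_option autoImplicit false

/-! Hereditary sets of differences of prime tuples in residue classes. -/

namespace Pool.Agent.W2helper64.RD

open Finset Filter
open Pool.Agent.Y827.LS Pool.Agent.Y827.GS Pool.Agent.Y827.HD

open Classical in
/-- the number of the `n ≤ x`, `n ≡ a` modulo `q`, such that `n + (t - t₀)` is prime exactly for the `t ∈ J`
among the `t ∈ T` -/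
noncomputable def cnt (q : ℕ) (a : ℤ) (T J : Finset ℕ) (t₀ x : ℕ) : ℕ :=
  ((Icc 1 x).filter (fun n : ℕ => (n : ℤ) ≡ a [ZMOD q] ∧ ∀ t ∈ T, ((n + (t - t₀)).Prime ↔ t ∈ J))).card

/-- all patterns on `T` occur in the class `a` modulo `q` for arbitrarily large `x` -/
def Gd (C q : ℕ) (a : ℤ) (T : Finset ℕ) : Prop := ∀ t₀ ∈ T, (∀ t ∈ T, t₀ ≤ t) →
  ∃ᶠ x : ℕ in atTop, ∀ J ⊆ T, (x : ℝ) / Real.log x ^ C ≤ (cnt q a T J t₀ x : ℝ)

lemma cnt_congr (q : ℕ) {a a' : ℤ} (h : a ≡ a' [ZMOD q]) (T J : Finset ℕ) (t₀ x : ℕ) :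
    cnt q a T J t₀ x = cnt q a' T J t₀ x := by
  unfold cnt
  congr 1
  apply filter_congr
  intro n _
  constructor
  · rintro ⟨h1, h2⟩; exact ⟨h1.trans h, h2⟩
  · rintro ⟨h1, h2⟩; exact ⟨h1.trans h.symm, h2⟩

lemma Gd.congr {C q : ℕ} {a a' : ℤ} (h : a ≡ a' [ZMOD q]) {T : Finset ℕ} (hg : Gd C q a T) :
    Gd C q a' T := by
  intro t₀ ht₀ hmin
  refine (hg t₀ ht₀ hmin).mono fun x hx J hJ => ?_
  rw [← cnt_congr q h]
  exact hx J hJ

/-- the transfer of scales -/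
lemma scale (q C : ℕ) : ∀ᶠ N : ℕ in atTop,
    (((q + 1) * N : ℕ) : ℝ) / Real.log ((q + 1) * N : ℕ) ^ (C + 1) ≤ N / Real.log N ^ C := by
  have tL : Tendsto (fun N : ℕ => Real.log (N : ℝ)) atTop atTop :=
    Real.tendsto_log_atTop.comp tendsto_natCast_atTop_atTop
  filter_upwards [tL.eventually_ge_atTop ((q : ℝ) + 1), eventually_ge_atTop 3] with N hN hN3
  have hN0 : (0 : ℝ) < N := by exact_mod_cast (by omega : 0 < N)
  have hq0 : (0 : ℝ) ≤ q := Nat.cast_nonneg _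
  have hl : 0 < Real.log N := by linarith
  have hle : Real.log N ≤ Real.log (((q + 1) * N : ℕ) : ℝ) := by
    apply Real.log_le_log hN0
    push_cast
    nlinarith
  have hl2 : 0 < Real.log (((q + 1) * N : ℕ) : ℝ) := hl.trans_le hle
  rw [div_le_div_iff₀ (by positivity) (by positivity)]
  have h1 : Real.log N ^ C ≤ Real.log (((q + 1) * N : ℕ) : ℝ) ^ C := pow_le_pow_left₀ hl.le hle C
  have h2 : (q : ℝ) + 1 ≤ Real.log (((q + 1) * N : ℕ) : ℝ) := hN.trans hle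
  calc (((q + 1) * N : ℕ) : ℝ) * Real.log N ^ C = N * (((q : ℝ) + 1) * Real.log N ^ C) := by
        push_cast; ring
    _ ≤ N * (Real.log (((q + 1) * N : ℕ) : ℝ) * Real.log (((q + 1) * N : ℕ) : ℝ) ^ C) := by
        apply mul_le_mul_of_nonneg_left _ hN0.le
        exact mul_le_mul h2 h1 (by positivity) hl2.le
    _ = _ := by rw [pow_succ]; ring

/-- a good tuple inside every large set -/
theorem exists_good (k : ℕ) : ∃ z n₀ C : ℕ, ∀ (q : ℕ) (a : ℤ), 1 ≤ q → IsCoprime a (q : ℤ) →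
    ∀ (v : ℕ) (V : Finset ℕ), (∀ x ∈ V, x ≡ v [MOD q * z.factorial]) → n₀ ≤ V.card →
      ∃ T ⊆ V, T.card = k + 1 ∧ Gd C q a T := by
  classical
  have hdn : 0 < dn k := by
    unfold dn
    split_ifs <;> positivity
  obtain ⟨z, n₀, C, h, -⟩ := finH k (dn k / 2) (by positivity)
  refine ⟨z, n₀ + 1, C + 1, fun q a hq ha v V hV hn => ?_⟩
  have hq0 : (0 : ℤ) < (q : ℤ) := by exact_mod_cast hq
  obtain ⟨ρ, hρ⟩ : ∃ ρ : ℕ, (ρ : ℤ) = (a - v) % q := ⟨((a - v) % (q : ℤ)).toNat,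
    Int.toNat_of_nonneg (Int.emod_nonneg _ hq0.ne')⟩
  have hρq : ρ < q := by
    have := Int.emod_lt_of_pos (a - v) hq0
    rw [← hρ] at this
    exact_mod_cast this
  have hVq : ∀ x ∈ V, (x : ℤ) ≡ v [ZMOD q] := by
    intro x hx
    have h1 : x ≡ v [MOD q] := (hV x hx).of_mul_right _
    exact (Int.natCast_modEq_iff).2 h1
  have hcls : ∀ x ∈ V, ((ρ + x : ℕ) : ℤ) ≡ a [ZMOD q] := by
    intro x hx
    have h1 : (ρ : ℤ) ≡ a - v [ZMOD q] := by rw [hρ]; exact Int.mod_modEq _ _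
    have h2 := h1.add (hVq x hx)
    rw [sub_add_cancel] at h2
    exact_mod_cast h2
  set F : Finset (ℤ × ℤ) := V.image (fun x : ℕ => ((q : ℤ), ((ρ + x : ℕ) : ℤ))) with hF
  have hFinj : Function.Injective (fun x : ℕ => ((q : ℤ), ((ρ + x : ℕ) : ℤ))) := by
    intro x y hxy
    have h1 := (Prod.ext_iff.1 hxy).2
    simp only at h1
    omega
  have hFcard : F.card = V.card := card_image_of_injective _ hFinj
  have hcop : ∀ x ∈ V, IsCoprime (q : ℤ) ((ρ + x : ℕ) : ℤ) := by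
    intro x hx
    obtain ⟨w, hw⟩ := (hcls x hx).symm.dvd
    have h3 : ((ρ + x : ℕ) : ℤ) = a + q * w := by linarith
    rw [h3]
    exact (ha.add_mul_left_left w).symm
  have h1 := h F (by
    intro f hf
    obtain ⟨x, hx, rfl⟩ := mem_image.1 hf
    exact ⟨hq0, hcop x hx⟩) (by
    intro p hpz hp
    have hpp := Nat.prime_iff_prime_int.1 hp
    by_cases hpq : (p : ℤ) ∣ q
    · refine ⟨0, fun f hf hd => ?_⟩
      obtain ⟨x, hx, rfl⟩ := mem_image.1 hf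
      simp only [mul_zero, zero_add] at hd
      exact hpp.not_isUnit ((hcop x hx).isUnit_of_dvd' hpq hd)
    · -- solve `q r ≡ 1 - (ρ + v)` modulo `p`
      have hcp : IsCoprime (p : ℤ) (q : ℤ) := (Prime.coprime_iff_not_dvd hpp).2 hpq
      obtain ⟨s, t, hst⟩ := hcp
      refine ⟨t * (1 - ((ρ + v : ℕ) : ℤ)), fun f hf hd => ?_⟩
      obtain ⟨x, hx, rfl⟩ := mem_image.1 hf
      simp only at hd
      have hpz' : p ∣ z.factorial := (hp.dvd_factorial).2 hpz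
      have h2 : x ≡ v [MOD p] := Nat.ModEq.of_dvd (hpz'.mul_left q) (hV x hx)
      have h3 : (p : ℤ) ∣ (v : ℤ) - x := (Int.natCast_modEq_iff.2 h2).dvd
      have h4 : (p : ℤ) ∣ 1 := by
        have e : (1 : ℤ) = ((q : ℤ) * (t * (1 - ((ρ + v : ℕ) : ℤ))) + ((ρ + x : ℕ) : ℤ)) + ((v : ℤ) - x) +
            p * (s * (1 - ((ρ + v : ℕ) : ℤ))) := by
          have e2 : (q : ℤ) * t = 1 - s * p := by linarith
          push_cast
          linear_combination (-(1 - ((ρ : ℤ) + v))) * e2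
        rw [e]
        exact dvd_add (dvd_add hd h3) (dvd_mul_right _ _)
      exact hpp.not_isUnit (isUnit_of_dvd_one h4)) (by rw [hFcard]; omega)
  obtain ⟨G, hG1, hG2, hG3⟩ := h1
  have hGne : G.Nonempty := by
    rw [← Finset.card_pos]
    have h2 : (0 : ℝ) < F.card := by
      rw [hFcard]
      exact_mod_cast (by omega : 0 < V.card)
    have h3 : (0 : ℝ) < (dn k - dn k / 2) * (F.card : ℝ) ^ (k + 1) := by
      have : 0 < dn k - dn k / 2 := by linarith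
      positivity
    exact_mod_cast h3.trans_le hG2
  obtain ⟨f, hf⟩ := hGne
  obtain ⟨hf1, hf2⟩ := hG1 f hf
  have hx : ∀ i, ∃ x ∈ V, ((q : ℤ), ((ρ + x : ℕ) : ℤ)) = f i := fun i => mem_image.1 (hf1 i)
  choose w hw1 hw2 using hx
  have hwinj : Function.Injective w := by
    intro i j hij
    apply hf2
    rw [← hw2 i, ← hw2 j, hij]
  refine ⟨univ.image w, ?_, ?_, ?_⟩
  · intro x hx
    obtain ⟨i, -, rfl⟩ := mem_image.1 hx
    exact hw1 i
  · rw [card_image_of_injective _ hwinj, card_univ, Fintype.card_fin]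
  intro t₀ ht₀ hmin
  -- transfer of the count
  have hev : ∀ᶠ N : ℕ in atTop, q + t₀ ≤ N ∧
      (((q + 1) * N : ℕ) : ℝ) / Real.log ((q + 1) * N : ℕ) ^ (C + 1) ≤ N / Real.log N ^ C :=
    (eventually_ge_atTop _).and (scale q C)
  have hfr := hG3.and_eventually hev
  have hmain : ∀ N : ℕ, (∀ f ∈ G, ∀ J : Finset (Fin (k + 1)), (N : ℝ) / (Real.log N) ^ C ≤ (pat f J N : ℝ)) →
      q + t₀ ≤ N → (((q + 1) * N : ℕ) : ℝ) / Real.log ((q + 1) * N : ℕ) ^ (C + 1) ≤ N / Real.log N ^ C →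
      ∀ J ⊆ univ.image w, (((q + 1) * N : ℕ) : ℝ) / Real.log ((q + 1) * N : ℕ) ^ (C + 1) ≤
        (cnt q a (univ.image w) J t₀ ((q + 1) * N) : ℝ) := by
    intro N h2 h3 h4 J hJ
    refine h4.trans ((h2 f hf (univ.filter (fun i => w i ∈ J))).trans ?_)
    rw [Nat.cast_le]
    unfold pat cnt
    refine card_le_card_of_injOn (fun n => q * n + ρ + t₀) ?_ ?_
    · intro n hn
      rw [mem_coe, mem_filter, mem_Icc] at hn
      obtain ⟨⟨hn1, hn2⟩, hn3⟩ := hn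
      rw [mem_coe, mem_filter, mem_Icc]
      refine ⟨⟨?_, ?_⟩, ?_, ?_⟩
      · have : 1 ≤ q * n := Nat.mul_pos (by omega) (by omega)
        show 1 ≤ q * n + ρ + t₀
        omega
      · show q * n + ρ + t₀ ≤ (q + 1) * N
        have : q * n ≤ q * N := Nat.mul_le_mul_left _ hn2
        have e : (q + 1) * N = q * N + N := by ring
        omega
      · obtain ⟨i₀, -, hi₀⟩ := mem_image.1 ht₀
        have h5 := hcls (w i₀) (hw1 i₀)
        show (((q * n + ρ + t₀ : ℕ)) : ℤ) ≡ a [ZMOD q]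
        have h6 : (((q * n + ρ + t₀ : ℕ)) : ℤ) = ((ρ + w i₀ : ℕ) : ℤ) + q * n := by
          rw [hi₀]
          push_cast
          ring
        rw [h6]
        have h7 : ((ρ + w i₀ : ℕ) : ℤ) + q * n ≡ ((ρ + w i₀ : ℕ) : ℤ) [ZMOD q] :=
          Int.modEq_iff_dvd.2 ⟨-n, by ring⟩
        exact h7.trans h5
      · intro t ht
        obtain ⟨i, -, rfl⟩ := mem_image.1 ht
        have h5 := hn3 i
        rw [← hw2 i] at h5
        simp only at h5
        have h6 : ((q : ℤ) * (n : ℤ) + ((ρ + w i : ℕ) : ℤ)).toNat = q * n + ρ + t₀ + (w i - t₀) := by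
          have := hmin (w i) ht
          omega
        rw [h6] at h5
        rw [h5, mem_filter]
        exact ⟨fun h => h.2, fun h => ⟨mem_univ _, h⟩⟩
    · intro n _ n' _ hnn
      simp only at hnn
      have h5 : q * n = q * n' := by omega
      exact Nat.eq_of_mul_eq_mul_left (by omega) h5
  have htend : Tendsto (fun N : ℕ => (q + 1) * N) atTop atTop :=
    tendsto_id.const_mul_atTop' (by omega)
  rw [Filter.frequently_atTop] at hfr ⊢
  intro x₀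
  obtain ⟨N, hN1, hN2, hN3, hN4⟩ := hfr x₀
  refine ⟨(q + 1) * N, ?_, hmain N hN2 hN3 hN4⟩
  show x₀ ≤ (q + 1) * N
  nlinarith

/-- one stage -/
lemma stage (k : ℕ) : ∃ C : ℕ, ∀ (q : ℕ) (a : ℤ), 1 ≤ q → ∀ Y : Set ℕ, Y.Infinite → ∃ Z ⊆ Y, Z.Infinite ∧
    (IsCoprime a (q : ℤ) → ∀ T : Finset ℕ, (T : Set ℕ) ⊆ Z → T.card = k + 1 → Gd C q a T) := by
  obtain ⟨z, n₀, C, h⟩ := exists_good k
  refine ⟨C, fun q a hq Y hY => ?_⟩
  by_cases ha : IsCoprime a (q : ℤ)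
  · obtain ⟨v, Z, h1, h2, h3⟩ := pigeon (q * z.factorial) (Nat.mul_pos (by omega) (Nat.factorial_pos z)) Y hY
    obtain ⟨Z', g1, g2, g3⟩ := ramsey (k + 1) (Gd C q a) Z h2
    rcases g3 with g3 | g3
    · exact ⟨Z', g1.trans h1, g2, fun _ => g3⟩
    · exfalso
      obtain ⟨V, hV1, hV2⟩ := g2.exists_subset_card_eq n₀
      obtain ⟨T, hT1, hT2, hT3⟩ := h q a hq ha v V (fun x hx => h3 x (g1 (hV1 hx))) hV2.ge
      exact g3 T (fun x hx => hV1 (hT1 hx)) hT2 hT3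
  · exact ⟨Y, le_rfl, hY, fun h => absurd h ha⟩

theorem main : ∃ C : ℕ → ℕ, ∀ V : Set ℕ, V.Infinite → ∃ B ⊆ V, B.Infinite ∧
    ∀ k q : ℕ, 1 ≤ q → ∃ K : ℕ, ∀ T : Finset ℕ, (T : Set ℕ) ⊆ B → T.card = k + 1 → (∀ t ∈ T, K ≤ t) →
      ∀ a : ℤ, IsCoprime a (q : ℤ) → Gd (C k) q a T := by
  choose C hC using stage
  refine ⟨C, fun V hV => ?_⟩
  obtain ⟨f, hf⟩ := exists_surjective_nat (ℕ × ℕ × ℤ)
  obtain ⟨b, hb, hbV, -, hd⟩ := diag (fun j Z => 1 ≤ (f j).2.1 → IsCoprime (f j).2.2 ((f j).2.1 : ℤ) →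
      ∀ T : Finset ℕ, (T : Set ℕ) ⊆ Z → T.card = (f j).1 + 1 → Gd (C (f j).1) (f j).2.1 (f j).2.2 T)
    (fun j Z Z' hZ h h1 h2 T hT => h h1 h2 T (hT.trans hZ))
    (fun j Y hY => by
      by_cases hq : 1 ≤ (f j).2.1
      · obtain ⟨Z, h1, h2, h3⟩ := hC (f j).1 (f j).2.1 (f j).2.2 hq Y hY
        exact ⟨Z, h1, h2, fun _ => h3⟩
      · exact ⟨Y, le_rfl, hY, fun h => absurd h hq⟩) V hV
  refine ⟨Set.range b, ?_, Set.infinite_range_of_injective hb.injective, fun k q hq => ?_⟩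
  · rintro _ ⟨i, rfl⟩
    exact hbV i
  have hq0 : (0 : ℤ) < (q : ℤ) := by exact_mod_cast hq
  choose κ hκ using fun ρ : ℕ => hf (k, q, (ρ : ℤ))
  obtain ⟨k₁, hk₁⟩ : ∃ k₁ : ℕ, ∀ ρ : ℕ, ρ < q → κ ρ ≤ k₁ := ⟨(range q).sup κ, fun ρ hρ =>
    le_sup (f := κ) (mem_range.2 hρ)⟩
  refine ⟨b k₁, fun T hT hTc hK a ha => ?_⟩
  obtain ⟨ρ, hρ⟩ : ∃ ρ : ℕ, (ρ : ℤ) = a % q := ⟨(a % (q : ℤ)).toNat,
    Int.toNat_of_nonneg (Int.emod_nonneg _ hq0.ne')⟩
  have hρq : ρ < q := by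
    have := Int.emod_lt_of_pos a hq0
    rw [← hρ] at this
    exact_mod_cast this
  have hρa : (ρ : ℤ) ≡ a [ZMOD q] := by rw [hρ]; exact Int.mod_modEq _ _
  have hcop : IsCoprime (ρ : ℤ) (q : ℤ) := by
    obtain ⟨w, hw⟩ := hρa.symm.dvd
    have h3 : (ρ : ℤ) = a + q * w := by linarith
    rw [h3]
    exact ha.add_mul_left_left w
  have h1 := hd (κ ρ)
  rw [hκ ρ] at h1
  refine Gd.congr hρa (h1 hq hcop T ?_ hTc)
  intro x hx
  obtain ⟨i, rfl⟩ := hT hx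
  refine ⟨i, ?_, rfl⟩
  have h2 := hb.le_iff_le.1 (hK (b i) hx)
  have h3 := hk₁ ρ hρq
  show κ ρ ≤ i
  omega

end Pool.Agent.W2helper64.RD
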