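import Mathlib
import Pool.Agent.W2helper64.RD.Fin

set_option autoImplicit false

/-! Common scales: all patterns for all large tuples of a set of differences along one sequence of `x`. -/

namespace Pool.Agent.W2helper64.RD

open Finset Filter
open Pool.Agent.Y827.LS Pool.Agent.Y827.GS Pool.Agent.Y827.HD

/-- all patterns on `T` are frequent in the class of `a` modulo `q`, up to `x` -/
def Gx (C q : ℕ) (a : ℤ) (T : Finset ℕ) (x : ℕ) : Prop := ∀ t₀ ∈ T, (∀ t ∈ T, t₀ ≤ t) →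
  ∀ J ⊆ T, (x : ℝ) / Real.log x ^ C ≤ (cnt q a T J t₀ x : ℝ)

lemma Gx.congr {C q : ℕ} {a a' : ℤ} (h : a ≡ a' [ZMOD q]) {T : Finset ℕ} {x : ℕ} (hg : Gx C q a T x) :
    Gx C q a' T x := by
  intro t₀ ht₀ hmin J hJ
  rw [← cnt_congr q h]
  exact hg t₀ ht₀ hmin J hJ

lemma scale' (q C : ℕ) : ∀ᶠ x : ℕ in atTop,
    (x : ℝ) / Real.log x ^ (C + 1) ≤ ((x / (q + 1) : ℕ) : ℝ) / Real.log (x / (q + 1) : ℕ) ^ C := by
  have tL : Tendsto (fun N : ℕ => Real.log (N : ℝ)) atTop atTop :=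
    Real.tendsto_log_atTop.comp tendsto_natCast_atTop_atTop
  filter_upwards [tL.eventually_ge_atTop (2 * ((q : ℝ) + 1)), eventually_ge_atTop (3 * (q + 1))] with x hx hx3
  obtain ⟨N, hN⟩ : ∃ N, N = x / (q + 1) := ⟨_, rfl⟩
  rw [← hN]
  have hN3 : 3 ≤ N := by
    rw [hN, Nat.le_div_iff_mul_le (by omega)]
    exact hx3
  have hNx : (N : ℝ) ≤ x := by
    have : N ≤ x := by rw [hN]; exact Nat.div_le_self _ _
    exact_mod_cast this
  have hxN : (x : ℝ) ≤ 2 * ((q : ℝ) + 1) * N := by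
    have h1 : x < (N + 1) * (q + 1) := by
      have := Nat.lt_div_mul_add (a := x) (b := q + 1) (by omega)
      rw [← hN] at this
      calc x < N * (q + 1) + (q + 1) := this
        _ = _ := by ring
    have h2 : x ≤ 2 * (q + 1) * N := by nlinarith
    exact_mod_cast h2
  have hN0 : (3 : ℝ) ≤ N := by exact_mod_cast hN3
  have hl : 0 < Real.log N := Real.log_pos (by linarith)
  have hle : Real.log N ≤ Real.log x := Real.log_le_log (by linarith) hNx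
  have hl2 : 0 < Real.log x := hl.trans_le hle
  rw [div_le_div_iff₀ (by positivity) (by positivity)]
  have h1 : Real.log N ^ C ≤ Real.log x ^ C := pow_le_pow_left₀ hl.le hle C
  calc (x : ℝ) * Real.log N ^ C ≤ (2 * ((q : ℝ) + 1) * N) * Real.log x ^ C :=
        mul_le_mul hxN h1 (by positivity) (by positivity)
    _ ≤ (Real.log x * N) * Real.log x ^ C := by
        apply mul_le_mul_of_nonneg_right _ (by positivity)
        exact mul_le_mul_of_nonneg_right hx (by linarith)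
    _ = _ := by rw [pow_succ]; ring

/-- a good tuple inside every large set, at every large scale -/
theorem exists_goodU (k : ℕ) : ∃ z n₀ C : ℕ, ∀ (q : ℕ) (a : ℤ), 1 ≤ q → IsCoprime a (q : ℤ) →
    ∀ (v : ℕ) (V : Finset ℕ), (∀ x ∈ V, x ≡ v [MOD q * z.factorial]) → n₀ ≤ V.card →
      ∀ᶠ x : ℕ in atTop, ∃ T ∈ V.powerset, T.card = k + 1 ∧ Gx C q a T x := by
  classical
  have hdn : 0 < dn k := by
    unfold dn
    split_ifs <;> positivity
  obtain ⟨z, n₀, C, -, h⟩ := finH k (dn k / 2) (by positivity)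
  refine ⟨z, n₀ + 1, C + 1, fun q a hq ha v V hV hn => ?_⟩
  have hq0 : (0 : ℤ) < (q : ℤ) := by exact_mod_cast hq
  obtain ⟨ρ, hρ⟩ : ∃ ρ : ℕ, (ρ : ℤ) = (a - v) % q := ⟨((a - v) % (q : ℤ)).toNat,
    Int.toNat_of_nonneg (Int.emod_nonneg _ hq0.ne')⟩
  have hρq : ρ < q := by
    have := Int.emod_lt_of_pos (a - v) hq0
    rw [← hρ] at this
    exact_mod_cast this
  have hVq : ∀ x ∈ V, (x : ℤ) ≡ v [ZMOD q] := by
    intro x hx
    have h1 : x ≡ v [MOD q] := (hV x hx).of_mul_right _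
    exact (Int.natCast_modEq_iff).2 h1
  have hcls : ∀ x ∈ V, ((ρ + x : ℕ) : ℤ) ≡ a [ZMOD q] := by
    intro x hx
    have h1 : (ρ : ℤ) ≡ a - v [ZMOD q] := by rw [hρ]; exact Int.mod_modEq _ _
    have h2 := h1.add (hVq x hx)
    rw [sub_add_cancel] at h2
    exact_mod_cast h2
  set F : Finset (ℤ × ℤ) := V.image (fun x : ℕ => ((q : ℤ), ((ρ + x : ℕ) : ℤ))) with hF
  have hFinj : Function.Injective (fun x : ℕ => ((q : ℤ), ((ρ + x : ℕ) : ℤ))) := by
    intro x y hxy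
    have h1 := (Prod.ext_iff.1 hxy).2
    simp only at h1
    omega
  have hFcard : F.card = V.card := card_image_of_injective _ hFinj
  have hcop : ∀ x ∈ V, IsCoprime (q : ℤ) ((ρ + x : ℕ) : ℤ) := by
    intro x hx
    obtain ⟨w, hw⟩ := (hcls x hx).symm.dvd
    have h3 : ((ρ + x : ℕ) : ℤ) = a + q * w := by linarith
    rw [h3]
    exact (ha.add_mul_left_left w).symm
  have hpr : ∀ f ∈ F, 0 < f.1 ∧ IsCoprime f.1 f.2 := by
    intro f hf
    obtain ⟨x, hx, rfl⟩ := mem_image.1 hf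
    exact ⟨hq0, hcop x hx⟩
  have hadm : AdmF z F := by
    intro p hpz hp
    have hpp := Nat.prime_iff_prime_int.1 hp
    by_cases hpq : (p : ℤ) ∣ q
    · refine ⟨0, fun f hf hd => ?_⟩
      obtain ⟨x, hx, rfl⟩ := mem_image.1 hf
      simp only [mul_zero, zero_add] at hd
      exact hpp.not_isUnit ((hcop x hx).isUnit_of_dvd' hpq hd)
    · have hcp : IsCoprime (p : ℤ) (q : ℤ) := (Prime.coprime_iff_not_dvd hpp).2 hpq
      obtain ⟨s, t, hst⟩ := hcp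
      refine ⟨t * (1 - ((ρ + v : ℕ) : ℤ)), fun f hf hd => ?_⟩
      obtain ⟨x, hx, rfl⟩ := mem_image.1 hf
      simp only at hd
      have hpz' : p ∣ z.factorial := (hp.dvd_factorial).2 hpz
      have h2 : x ≡ v [MOD p] := Nat.ModEq.of_dvd (hpz'.mul_left q) (hV x hx)
      have h3 : (p : ℤ) ∣ (v : ℤ) - x := (Int.natCast_modEq_iff.2 h2).dvd
      have h4 : (p : ℤ) ∣ 1 := by
        have e : (1 : ℤ) = ((q : ℤ) * (t * (1 - ((ρ + v : ℕ) : ℤ))) + ((ρ + x : ℕ) : ℤ)) + ((v : ℤ) - x) +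
            p * (s * (1 - ((ρ + v : ℕ) : ℤ))) := by
          have e2 : (q : ℤ) * t = 1 - s * p := by linarith
          push_cast
          linear_combination (-(1 - ((ρ : ℤ) + v))) * e2
        rw [e]
        exact dvd_add (dvd_add hd h3) (dvd_mul_right _ _)
      exact hpp.not_isUnit (isUnit_of_dvd_one h4)
  obtain ⟨A, hA⟩ := adf_ev F hpr
  have tN : Tendsto (fun x : ℕ => x / (q + 1)) atTop atTop := Nat.tendsto_div_const_atTop (by omega)
  have hev : ∀ᶠ N : ℕ in atTop, (∀ f ∈ F, Adf A N f) ∧ (∀ V : Finset (ℤ × ℤ),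
      (∀ f ∈ V, Adf A N f) → AdmF z V → n₀ ≤ V.card →
      ∃ G : Finset (Fin (k + 1) → ℤ × ℤ),
        (∀ f ∈ G, (∀ i, f i ∈ V) ∧ Function.Injective f) ∧
        (dn k - dn k / 2) * (V.card : ℝ) ^ (k + 1) ≤ (G.card : ℝ) ∧ ∀ f ∈ G, ∀ J : Finset (Fin (k + 1)),
          (N : ℝ) / (Real.log N) ^ C ≤ (pat f J N : ℝ)) ∧ q + V.sup id ≤ N :=
    hA.and ((h A).and (eventually_ge_atTop _))
  filter_upwards [tN.eventually hev, scale' q C] with X hX hsc
  obtain ⟨hX1, hX2, hX3⟩ := hX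
  obtain ⟨N, hN⟩ : ∃ N, N = X / (q + 1) := ⟨_, rfl⟩
  rw [← hN] at hX1 hX2 hX3 hsc
  have hNX : (q + 1) * N ≤ X := by rw [hN]; exact Nat.mul_div_le _ _
  obtain ⟨G, hG1, hG2, hG3⟩ := hX2 F hX1 hadm (by rw [hFcard]; omega)
  have hGne : G.Nonempty := by
    rw [← Finset.card_pos]
    have h2 : (0 : ℝ) < F.card := by
      rw [hFcard]
      exact_mod_cast (by omega : 0 < V.card)
    have h3 : (0 : ℝ) < (dn k - dn k / 2) * (F.card : ℝ) ^ (k + 1) := by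
      have : 0 < dn k - dn k / 2 := by linarith
      positivity
    exact_mod_cast h3.trans_le hG2
  obtain ⟨f, hf⟩ := hGne
  obtain ⟨hf1, hf2⟩ := hG1 f hf
  have hx : ∀ i, ∃ x ∈ V, ((q : ℤ), ((ρ + x : ℕ) : ℤ)) = f i := fun i => mem_image.1 (hf1 i)
  choose w hw1 hw2 using hx
  have hwinj : Function.Injective w := by
    intro i j hij
    apply hf2
    rw [← hw2 i, ← hw2 j, hij]
  refine ⟨univ.image w, ?_, ?_, ?_⟩
  · rw [mem_powerset]
    intro x hx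
    obtain ⟨i, -, rfl⟩ := mem_image.1 hx
    exact hw1 i
  · rw [card_image_of_injective _ hwinj, card_univ, Fintype.card_fin]
  intro t₀ ht₀ hmin J hJ
  have ht₀V : t₀ ≤ V.sup id := by
    obtain ⟨i, -, rfl⟩ := mem_image.1 ht₀
    exact le_sup (f := id) (hw1 i)
  refine hsc.trans ((hG3 f hf (univ.filter (fun i => w i ∈ J))).trans ?_)
  rw [Nat.cast_le]
  unfold pat cnt
  refine card_le_card_of_injOn (fun n => q * n + ρ + t₀) ?_ ?_
  · intro n hn
    rw [mem_coe, mem_filter, mem_Icc] at hn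
    obtain ⟨⟨hn1, hn2⟩, hn3⟩ := hn
    rw [mem_coe, mem_filter, mem_Icc]
    refine ⟨⟨?_, ?_⟩, ?_, ?_⟩
    · have : 1 ≤ q * n := Nat.mul_pos (by omega) (by omega)
      show 1 ≤ q * n + ρ + t₀
      omega
    · show q * n + ρ + t₀ ≤ X
      have : q * n ≤ q * N := Nat.mul_le_mul_left _ hn2
      have e : (q + 1) * N = q * N + N := by ring
      omega
    · obtain ⟨i₀, -, hi₀⟩ := mem_image.1 ht₀
      have h5 := hcls (w i₀) (hw1 i₀)
      show (((q * n + ρ + t₀ : ℕ)) : ℤ) ≡ a [ZMOD q]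
      have h6 : (((q * n + ρ + t₀ : ℕ)) : ℤ) = ((ρ + w i₀ : ℕ) : ℤ) + q * n := by
        rw [hi₀]
        push_cast
        ring
      rw [h6]
      have h7 : ((ρ + w i₀ : ℕ) : ℤ) + q * n ≡ ((ρ + w i₀ : ℕ) : ℤ) [ZMOD q] :=
        Int.modEq_iff_dvd.2 ⟨-n, by ring⟩
      exact h7.trans h5
    · intro t ht
      obtain ⟨i, -, rfl⟩ := mem_image.1 ht
      have h5 := hn3 i
      rw [← hw2 i] at h5
      simp only at h5
      have h6 : ((q : ℤ) * (n : ℤ) + ((ρ + w i : ℕ) : ℤ)).toNat = q * n + ρ + t₀ + (w i - t₀) := by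
        have := hmin (w i) ht
        omega
      rw [h6] at h5
      rw [h5, mem_filter]
      exact ⟨fun h => h.2, fun h => ⟨mem_univ _, h⟩⟩
  · intro n _ n' _ hnn
    simp only at hnn
    have h5 : q * n = q * n' := by omega
    exact Nat.eq_of_mul_eq_mul_left (by omega) h5

/-- one stage -/
lemma stageU (k : ℕ) : ∃ C : ℕ, ∀ U : Ultrafilter ℕ, (U : Filter ℕ) ≤ atTop → ∀ (q : ℕ) (a : ℤ), 1 ≤ q →
    ∀ Y : Set ℕ, Y.Infinite → ∃ Z ⊆ Y, Z.Infinite ∧ (IsCoprime a (q : ℤ) →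
      ∀ T : Finset ℕ, (T : Set ℕ) ⊆ Z → T.card = k + 1 → ∀ᶠ x in U, Gx C q a T x) := by
  obtain ⟨z, n₀, C, h⟩ := exists_goodU k
  refine ⟨C, fun U hU q a hq Y hY => ?_⟩
  by_cases ha : IsCoprime a (q : ℤ)
  · obtain ⟨v, Z, h1, h2, h3⟩ := pigeon (q * z.factorial) (Nat.mul_pos (by omega) (Nat.factorial_pos z)) Y hY
    obtain ⟨Z', g1, g2, g3⟩ := ramsey (k + 1) (fun T => ∀ᶠ x in U, Gx C q a T x) Z h2
    rcases g3 with g3 | g3
    · exact ⟨Z', g1.trans h1, g2, fun _ => g3⟩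
    · exfalso
      obtain ⟨V, hV1, hV2⟩ := g2.exists_subset_card_eq n₀
      have h4 := (h q a hq ha v V (fun x hx => h3 x (g1 (hV1 hx))) hV2.ge).filter_mono hU
      have h5 : ∀ᶠ x in U, ∀ T ∈ V.powerset, T.card = k + 1 → ¬ Gx C q a T x := by
        rw [Filter.eventually_all_finset]
        intro T hT
        rw [mem_powerset] at hT
        by_cases hT2 : T.card = k + 1
        · have h6 := g3 T (fun x hx => hV1 (hT hx)) hT2
          rw [← Ultrafilter.eventually_not] at h6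
          filter_upwards [h6] with x hx _
          exact hx
        · exact Eventually.of_forall fun x h => absurd h hT2
      obtain ⟨x, ⟨T, hT1, hT2, hT3⟩, hx⟩ := (h4.and h5).exists
      exact hx T hT1 hT2 hT3
  · exact ⟨Y, le_rfl, hY, fun h => absurd h ha⟩

/-- a sequence of scales -/
lemma scales (L : Filter ℕ) [L.NeBot] (hL : L ≤ atTop) (S : Set ℕ) (hS : S ∈ L) (A : ℕ → Set ℕ)
    (hA : ∀ j, A j ∈ L) : ∃ X ⊆ S, X.Infinite ∧ ∀ j, ∃ x₀ : ℕ, ∀ x ∈ X, x₀ ≤ x → x ∈ A j := by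
  have hex : ∀ j m : ℕ, ∃ x, x ∈ S ∧ m < x ∧ ∀ i ≤ j, x ∈ A i := by
    intro j m
    have h1 : ∀ᶠ x in L, ∀ i ∈ Finset.Iic j, x ∈ A i := by
      rw [Filter.eventually_all_finset]
      intro i _
      exact hA i
    have h2 : ∀ᶠ x in L, m < x := (eventually_gt_atTop m).filter_mono hL
    obtain ⟨x, ⟨hx1, hx2⟩, hx3⟩ := ((Filter.Eventually.and (p := fun x => x ∈ S) hS h2).and h1).exists
    exact ⟨x, hx1, hx2, fun i hi => hx3 i (Finset.mem_Iic.2 hi)⟩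
  choose g hg1 hg2 hg3 using hex
  let b : ℕ → ℕ := fun k => Nat.rec (g 0 0) (fun j x => g (j + 1) x) k
  have hb : ∀ k, b (k + 1) = g (k + 1) (b k) := fun k => rfl
  have hbm : StrictMono b := strictMono_nat_of_lt_succ fun k => by
    rw [hb]
    exact hg2 _ _
  have hbS : ∀ k, b k ∈ S ∧ ∀ i ≤ k, b k ∈ A i := by
    intro k
    rcases k with _ | k
    · exact ⟨hg1 0 0, hg3 0 0⟩
    · rw [hb]
      exact ⟨hg1 _ _, hg3 _ _⟩
  refine ⟨Set.range b, ?_, Set.infinite_range_of_injective hbm.injective, fun j => ⟨b j, ?_⟩⟩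
  · rintro _ ⟨i, rfl⟩
    exact (hbS i).1
  · rintro _ ⟨i, rfl⟩ hi
    exact (hbS i).2 j (hbm.le_iff_le.1 hi)

theorem mainU : ∃ C : ℕ → ℕ, ∀ V S : Set ℕ, V.Infinite → S.Infinite → ∃ B ⊆ V, ∃ X ⊆ S, B.Infinite ∧
    X.Infinite ∧ ∀ k q : ℕ, 1 ≤ q → ∃ K : ℕ, ∀ T : Finset ℕ, (T : Set ℕ) ⊆ B → T.card = k + 1 →
      (∀ t ∈ T, K ≤ t) → ∃ x₀ : ℕ, ∀ x ∈ X, x₀ ≤ x → ∀ a : ℤ, IsCoprime a (q : ℤ) → Gx (C k) q a T x := by
  classical
  choose C hC using stageU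
  refine ⟨C, fun V S hV hS => ?_⟩
  have hne : (atTop ⊓ 𝓟 S : Filter ℕ).NeBot := by
    rw [← Filter.frequently_mem_iff_neBot]
    exact Nat.frequently_atTop_iff_infinite.2 hS
  obtain ⟨U, hU⟩ : ∃ U : Ultrafilter ℕ, (U : Filter ℕ) ≤ atTop ⊓ 𝓟 S :=
    ⟨Ultrafilter.of _, Ultrafilter.of_le _⟩
  have hU1 : (U : Filter ℕ) ≤ atTop := hU.trans inf_le_left
  have hU2 : S ∈ (U : Filter ℕ) := hU (mem_inf_of_right (mem_principal_self S))
  obtain ⟨f, hf⟩ := exists_surjective_nat (ℕ × ℕ × ℤ)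
  obtain ⟨b, hb, hbV, -, hd⟩ := diag (fun j Z => 1 ≤ (f j).2.1 → IsCoprime (f j).2.2 ((f j).2.1 : ℤ) →
      ∀ T : Finset ℕ, (T : Set ℕ) ⊆ Z → T.card = (f j).1 + 1 →
        ∀ᶠ x in U, Gx (C (f j).1) (f j).2.1 (f j).2.2 T x)
    (fun j Z Z' hZ h h1 h2 T hT => h h1 h2 T (hT.trans hZ))
    (fun j Y hY => by
      by_cases hq : 1 ≤ (f j).2.1
      · obtain ⟨Z, h1, h2, h3⟩ := hC (f j).1 U hU1 (f j).2.1 (f j).2.2 hq Y hY
        exact ⟨Z, h1, h2, fun _ => h3⟩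
      · exact ⟨Y, le_rfl, hY, fun h => absurd h hq⟩) V hV
  -- the data `(k, q, T)` and the scales
  obtain ⟨e, he⟩ := exists_surjective_nat (ℕ × ℕ × Finset ℕ)
  set A : ℕ → Set ℕ := fun j => {x | (∀ᶠ y in U, ∀ a : ℤ, IsCoprime a ((e j).2.1 : ℤ) →
    Gx (C (e j).1) (e j).2.1 a (e j).2.2 y) → ∀ a : ℤ, IsCoprime a ((e j).2.1 : ℤ) →
    Gx (C (e j).1) (e j).2.1 a (e j).2.2 x} with hA
  obtain ⟨X, hX1, hX2, hX3⟩ := scales (U : Filter ℕ) hU1 S hU2 A (by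
    intro j
    by_cases hj : ∀ᶠ y in U, ∀ a : ℤ, IsCoprime a ((e j).2.1 : ℤ) →
      Gx (C (e j).1) (e j).2.1 a (e j).2.2 y
    · refine Filter.mem_of_superset hj ?_
      intro x hx _
      exact hx
    · refine Filter.mem_of_superset Filter.univ_mem ?_
      intro x _ hx
      exact absurd hx hj)
  refine ⟨Set.range b, ?_, X, hX1, Set.infinite_range_of_injective hb.injective, hX2, fun k q hq => ?_⟩
  · rintro _ ⟨i, rfl⟩
    exact hbV i
  have hq0 : (0 : ℤ) < (q : ℤ) := by exact_mod_cast hq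
  choose κ hκ using fun ρ : ℕ => hf (k, q, (ρ : ℤ))
  obtain ⟨k₁, hk₁⟩ : ∃ k₁ : ℕ, ∀ ρ : ℕ, ρ < q → κ ρ ≤ k₁ := ⟨(range q).sup κ, fun ρ hρ =>
    le_sup (f := κ) (mem_range.2 hρ)⟩
  refine ⟨b k₁, fun T hT hTc hK => ?_⟩
  have hall : ∀ᶠ y in U, ∀ a : ℤ, IsCoprime a (q : ℤ) → Gx (C k) q a T y := by
    have h1 : ∀ᶠ y in U, ∀ ρ ∈ range q, IsCoprime (ρ : ℤ) (q : ℤ) → Gx (C k) q ρ T y := by
      rw [Filter.eventually_all_finset]
      intro ρ hρ
      rw [mem_range] at hρ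
      by_cases hcop : IsCoprime (ρ : ℤ) (q : ℤ)
      · have h1 := hd (κ ρ)
        rw [hκ ρ] at h1
        have h2 := h1 hq hcop T (by
          intro x hx
          obtain ⟨i, rfl⟩ := hT hx
          refine ⟨i, ?_, rfl⟩
          have h2 := hb.le_iff_le.1 (hK (b i) hx)
          have h3 := hk₁ ρ hρ
          show κ ρ ≤ i
          omega) hTc
        filter_upwards [h2] with y hy _
        exact hy
      · exact Eventually.of_forall fun y h => absurd h hcop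
    filter_upwards [h1] with y hy a ha
    obtain ⟨ρ, hρ⟩ : ∃ ρ : ℕ, (ρ : ℤ) = a % q := ⟨(a % (q : ℤ)).toNat,
      Int.toNat_of_nonneg (Int.emod_nonneg _ hq0.ne')⟩
    have hρq : ρ < q := by
      have := Int.emod_lt_of_pos a hq0
      rw [← hρ] at this
      exact_mod_cast this
    have hρa : (ρ : ℤ) ≡ a [ZMOD q] := by rw [hρ]; exact Int.mod_modEq _ _
    have hcop : IsCoprime (ρ : ℤ) (q : ℤ) := by
      obtain ⟨w, hw⟩ := hρa.symm.dvd
      have h3 : (ρ : ℤ) = a + q * w := by linarith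
      rw [h3]
      exact ha.add_mul_left_left w
    exact Gx.congr hρa (hy ρ (mem_range.2 hρq) hcop)
  obtain ⟨j, hj⟩ := he (k, q, T)
  obtain ⟨x₀, hx₀⟩ := hX3 j
  refine ⟨x₀, fun x hx hxx => ?_⟩
  have h1 := hx₀ x hx hxx
  rw [hA] at h1
  simp only [Set.mem_setOf_eq] at h1
  rw [hj] at h1
  exact h1 hall

end Pool.Agent.W2helper64.RD
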